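import Pool.Agent.helper59.GF.Spec

set_option autoImplicit false

/-!
# Row `gf:PRM` (MP_06d6be_co)

Permuting the nodes permutes the weights.
-/

namespace Pool.Agent.GF

theorem PRM : PRM_stmt := by
  intro p s σ r
  unfold mu
  have h : ∏ r' ∈ Finset.univ.erase r, ((s ∘ σ) r - (s ∘ σ) r') =
      ∏ r' ∈ Finset.univ.erase (σ r), (s (σ r) - s r') := by
    apply Finset.prod_bij (fun a _ => σ a)
    · intro a ha
      rw [Finset.mem_erase] at ha ⊢
      exact ⟨fun h => ha.1 (σ.injective h), Finset.mem_univ _⟩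
    · intro a _ b _ hab
      exact σ.injective hab
    · intro b hb
      refine ⟨σ.symm b, ?_, σ.apply_symm_apply b⟩
      rw [Finset.mem_erase] at hb ⊢
      refine ⟨fun h => hb.1 ?_, Finset.mem_univ _⟩
      rw [← h, σ.apply_symm_apply]
    · intro a _
      rfl
  rw [h]
  rfl

end Pool.Agent.GF
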