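import Pool.Agent.helper59.GF.Spec

/-!
Project gf: row SST, static sets.
-/

set_option autoImplicit false

namespace Pool.Agent.GF

open Filter Topology

theorem SST_GG (T x : ℕ → ℝ) (n : ℕ) : GG T x (n + 1) =
    GG T x n + (T n + T (n + 1)) / 2 * ((x (n + 1) - x n) + (T (n + 1) - T n) / 2) := by
  unfold GG
  rw [Finset.sum_range_succ]

theorem SST_up (N : ℕ) (T x : ℕ → ℝ) (hT : ∀ i, i + 1 < N → T i < T (i + 1))
    (hx : ∀ i, i + 1 < N → x (i + 1) - x i ≤ (T (i + 1) - T i) / 8) (a : ℕ) : ∀ k, a + k < N →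
    T a ≤ T (a + k) ∧ 3 / 16 * (T a - T (a + k)) ^ 2 ≤
    GG T x a - GG T x (a + k) + T a * (x (a + k) - x a) - T (a + k) / 2 * (T a - T (a + k)) := by
  intro k
  induction k with
  | zero =>
    intro _
    simp
  | succ k ih =>
    intro hk
    obtain ⟨h1, h2⟩ := ih (by omega)
    have h3 := hT (a + k) (by omega)
    have h4 := hx (a + k) (by omega)
    rw [show a + (k + 1) = a + k + 1 by ring, SST_GG]
    refine ⟨h1.trans h3.le, ?_⟩
    have h5 : 0 ≤ ((T (a + k) + T (a + k + 1)) / 2 - T a) *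
        ((T (a + k + 1) - T (a + k)) / 8 - (x (a + k + 1) - x (a + k))) :=
      mul_nonneg (by linarith) (by linarith)
    nlinarith [h2, h5]

theorem SST_down (N : ℕ) (T x : ℕ → ℝ) (hT : ∀ i, i + 1 < N → T i < T (i + 1))
    (hx : ∀ i, i + 1 < N → x (i + 1) - x i ≤ (T (i + 1) - T i) / 8) : ∀ k a, a + k < N →
    T a ≤ T (a + k) ∧ 3 / 16 * (T (a + k) - T a) ^ 2 ≤
    GG T x (a + k) - GG T x a + T (a + k) * (x a - x (a + k)) - T a / 2 * (T (a + k) - T a) := by
  intro k
  induction k with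
  | zero =>
    intro a _
    simp
  | succ k ih =>
    intro a hk
    obtain ⟨h1, h2⟩ := ih (a + 1) (by omega)
    have h3 := hT a (by omega)
    have h4 := hx a (by omega)
    rw [show a + 1 + k = a + (k + 1) by ring] at h1 h2
    have hG := SST_GG T x a
    refine ⟨h3.le.trans h1, ?_⟩
    have h5 : 0 ≤ (T (a + (k + 1)) - (T a + T (a + 1)) / 2) *
        ((T (a + 1) - T a) / 8 - (x (a + 1) - x a)) :=
      mul_nonneg (by linarith) (by linarith)
    rw [hG] at h2
    nlinarith [h2, h5]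

theorem SST : SST_stmt := by
  intro N T x hT hx n n' hn hn'
  rcases le_total n n' with h | h
  · obtain ⟨k, rfl⟩ := Nat.exists_eq_add_of_le h
    exact (SST_down N T x hT hx k n hn').2
  · obtain ⟨k, rfl⟩ := Nat.exists_eq_add_of_le h
    exact (SST_up N T x hT hx n' k hn).2

end Pool.Agent.GF
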